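import Pool.Agent.Q139.Cantor.Fin

/-!
# A non-amenable subgroup of `Map(ℝ² - C)` without quasimorphisms

The definitions `HasWinding` (file `Pool/Agent/Q139/Cantor/Wind.lean`) and `IsCantorSet`, `Surf`,
`OrientationPreserving`, `HomeoPlus`, `IsotopicToId`, `HomeoZero`, `MapGroup`, `Amenable`,
`IsHomogeneousQM` (file `Pool/Agent/Q139/Cantor/Defs.lean`) spell out the notions of the problem.
The plane is `ℂ`.

Construction. Let `D = ℤ × ℚ` with the lexicographic order. The group `Aut(D, <)` acts on the line
by homeomorphisms preserving a Cantor set `K` whose gaps correspond to the elements of `D`, hence on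
the plane minus `K × {0}`; a homeomorphism isotopic to the identity fixes `K` pointwise (winding
numbers), so `Aut(D, <)` embeds in the mapping class group. Let `H` be the subgroup of all
automorphisms which shift the blocks `{n} × ℚ` by a constant: `H = Aut(ℚ, <)^ℤ ⋊ ℤ` is not
amenable (ping-pong on `ℚ / ℤ`), and every element of the kernel of `H → ℤ` is a commutator
`[g, t]` with the shift `t`, so homogeneous quasimorphisms vanish on the kernel.
-/

set_option autoImplicit false

namespace Pool.Agent.Results.MP_ac6992_gt.NoDichotomy

open Pool.Agent.Q139.Cantor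

/-- There is a Cantor set `C` in the plane and a subgroup `H` of the mapping class group of
`ℝ² - C` which is not amenable and all of whose homogeneous quasimorphisms are homomorphisms, so
that `Q̃(H) = Q(H) / Hom(H, ℝ)` is zero, in particular finite-dimensional. -/
theorem result : ∃ C : Set ℂ, IsCantorSet C ∧ ∃ H : Subgroup (MapGroup C),
    ¬ Amenable H ∧ ∀ φ : H → ℝ, IsHomogeneousQM φ → ∀ g h : H, φ (g * h) = φ g + φ h :=
  final

end Pool.Agent.Results.MP_ac6992_gt.NoDichotomy
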